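import Pool.Agent.STR.Stmts

/-!
# Squad STR, module MOV: the expected number of changes
-/

set_option autoImplicit false

namespace Pool.Agent.STR.H90

open Finset Pool.Agent.STR

/-- Fubini for the last seed. -/
theorem sum_snoc {S : Type} [Fintype S] (K : ℕ) (F : (Fin (K + 1) → S) → ℝ) :
    ∑ ω, F ω = ∑ ω' : Fin K → S, ∑ s : S, F (Fin.snoc ω' s) := by
  rw [← Fintype.sum_prod_type']
  symm
  refine Fintype.sum_equiv ((Equiv.prodComm _ _).trans (Fin.snocEquiv fun _ => S)) _ _ ?_
  rintro ⟨ω', s⟩
  rfl

theorem card_snoc {S : Type} [Fintype S] (K : ℕ) :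
    (Fintype.card (Fin (K + 1) → S) : ℝ) = Fintype.card (Fin K → S) * Fintype.card S := by
  rw [Fintype.card_fun, Fintype.card_fun, Fintype.card_fin, Fintype.card_fin, pow_succ]
  push_cast
  ring

variable {α : Type} [Fintype α] [DecidableEq α]

theorem dist_fl (x : α → Bool) (j : α) : hammingDist x (fl x j) ≤ 1 := by
  unfold hammingDist
  rw [Finset.card_le_one]
  intro i hi i' hi'
  have key : ∀ k, k ∈ univ.filter (fun k => x k ≠ fl x j k) → k = j := by
    intro k hk
    by_contra hne
    apply (Finset.mem_filter.1 hk).2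
    rw [fl, Function.update_of_ne hne]
  rw [key i hi, key i' hi']

theorem dist_step {Q : ℕ} (a : α → (α → Bool) → ℕ) (s : α × Fin Q) (x y : α → Bool) :
    (hammingDist x (step a s y) : ℝ) ≤ hammingDist x y + if (s.2 : ℕ) < a s.1 y then 1 else 0 := by
  unfold step
  split_ifs with h
  · have h1 := hammingDist_triangle x y (fl y s.1)
    have h2 := dist_fl y s.1
    have : hammingDist x (fl y s.1) ≤ hammingDist x y + 1 := by omega
    exact_mod_cast this
  · simp

theorem count_lt {Q : ℕ} {m : ℕ} (hm : m ≤ Q) :
    ∑ U : Fin Q, (if (U : ℕ) < m then (1 : ℝ) else 0) = m := by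
  rw [Finset.sum_boole, Nat.cast_inj]
  have := Fin.card_filter_val_lt (n := Q) (m := m)
  rw [this, min_eq_right hm]

theorem mov : MovStmt := by
  intro α _ _ _ Q K a c hQ hc ha hsum x
  have hQ' : (0 : ℝ) < Q := by exact_mod_cast hQ
  have hN : (0 : ℝ) < Fintype.card α := by exact_mod_cast Fintype.card_pos
  haveI : Nonempty (Fin Q) := ⟨⟨0, hQ⟩⟩
  induction K with
  | zero => simp [av, run]
  | succ K ih =>
    have ih := ih fun k hk => hsum k (Nat.lt_succ_of_lt hk)
    unfold av at ih ⊢
    have hS : (0 : ℝ) < Fintype.card (α × Fin Q) := by exact_mod_cast Fintype.card_pos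
    have hO : (0 : ℝ) < Fintype.card (Fin K → α × Fin Q) := by exact_mod_cast Fintype.card_pos
    rw [div_le_iff₀ hO] at ih
    rw [sum_snoc, card_snoc, div_le_iff₀ (mul_pos hO hS)]
    have h1 : ∀ ω' : Fin K → α × Fin Q, ∑ s : α × Fin Q,
        (hammingDist x (run a (K + 1) (Fin.snoc ω' s) x) : ℝ) ≤
          Fintype.card (α × Fin Q) * (hammingDist x (run a K ω' x) + c) := by
      intro ω'
      have e : ∀ s, run a (K + 1) (Fin.snoc ω' s) x = step (a K) s (run a K ω' x) := by
        intro s
        simp only [run, Fin.snoc_last, Fin.snoc_castSucc]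
      calc ∑ s : α × Fin Q, (hammingDist x (run a (K + 1) (Fin.snoc ω' s) x) : ℝ)
          ≤ ∑ s : α × Fin Q, ((hammingDist x (run a K ω' x) : ℝ) +
              if (s.2 : ℕ) < a K s.1 (run a K ω' x) then 1 else 0) := by
            refine Finset.sum_le_sum fun s _ => ?_
            rw [e]
            exact dist_step _ _ _ _
        _ = Fintype.card (α × Fin Q) * (hammingDist x (run a K ω' x) : ℝ) +
              ∑ j, (a K j (run a K ω' x) : ℝ) := by
            rw [Finset.sum_add_distrib, Finset.sum_const, Finset.card_univ, nsmul_eq_mul,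
              Fintype.sum_prod_type]
            congr 1
            exact Finset.sum_congr rfl fun j _ => count_lt (ha K j _)
        _ ≤ Fintype.card (α × Fin Q) * (hammingDist x (run a K ω' x) + c) := by
            rw [mul_add]
            have h2 := hsum K (Nat.lt_succ_self K) (run a K ω' x)
            rw [← Finset.sum_div, div_le_iff₀ hQ'] at h2
            have h3 : (Fintype.card (α × Fin Q) : ℝ) = Fintype.card α * Q := by
              rw [Fintype.card_prod, Fintype.card_fin]; push_cast; ring
            rw [h3]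
            nlinarith
    calc ∑ ω' : Fin K → α × Fin Q, ∑ s : α × Fin Q,
          (hammingDist x (run a (K + 1) (Fin.snoc ω' s) x) : ℝ)
        ≤ ∑ ω' : Fin K → α × Fin Q, Fintype.card (α × Fin Q) *
            ((hammingDist x (run a K ω' x) : ℝ) + c) := Finset.sum_le_sum fun ω' _ => h1 ω'
      _ = Fintype.card (α × Fin Q) * (∑ ω' : Fin K → α × Fin Q,
            (hammingDist x (run a K ω' x) : ℝ)) +
            Fintype.card (α × Fin Q) * (Fintype.card (Fin K → α × Fin Q) * c) := by
          rw [← Finset.mul_sum, Finset.sum_add_distrib, Finset.sum_const, Finset.card_univ,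
            nsmul_eq_mul, mul_add]
      _ ≤ Fintype.card (α × Fin Q) * (K * c * Fintype.card (Fin K → α × Fin Q)) +
            Fintype.card (α × Fin Q) * (Fintype.card (Fin K → α × Fin Q) * c) := by
          have := mul_le_mul_of_nonneg_left ih hS.le
          linarith
      _ = ((K + 1 : ℕ) : ℝ) * c * (Fintype.card (Fin K → α × Fin Q) *
            Fintype.card (α × Fin Q)) := by push_cast; ring

end Pool.Agent.STR.H90
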